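import Pool.Agent.W263.MS.Transfer
import Pool.Agent.W263.MS.RS
import Pool.Agent.W263.MS.EQFinal
import Pool.Agent.W524.LV.Sharp

/-! Conversion of the mean square conditions, for Euler products over norm systems. -/

set_option autoImplicit false

namespace Pool.Agent.W524.LQ

open MeasureTheory Filter Topology Set Classical
open Pool.Agent.W263.EP Pool.Agent.W263.MN Pool.Agent.W263.LG Pool.Agent.W263.MS
open Pool.Agent.W263.BSD (stp stp_meas pk)
open Pool.Agent.H341R2 (NormSys)

variable {S : NormSys} {Bs : Finset S.X} {bad : Set S.X} {B : S.X → Polynomial ℂ}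
  {tr : S.X → ℕ → ℝ} {ω : ℝ} {D : ℝ} {F : ℂ → ℂ} {Q : ℝ → ℝ} {κ : ℝ}

/-- the data of a normalisation -/
structure QD (S : NormSys) (bad : Set S.X) (tr : S.X → ℕ → ℝ) (ω : ℝ) (Q : ℝ → ℝ) (κ : ℝ) :
    Prop where
  pos : ∀ x, 1 < x → 0 < Q x
  meas : ∃ q : ℝ → ℝ, Measurable q ∧ (∀ u, 0 < u → q u = Real.log (Q (Real.exp u))) ∧
    ∀ U, ∃ B, ∀ u, 0 < u → u ≤ U → |q u| ≤ B
  cmp : ∃ C : ℝ, ∀ᶠ x : ℝ in atTop, |Real.log (Q x) + MK S bad tr ω 0 x - κ| ≤ C / Real.log x

/-- **Conversion.** -/
theorem qconv (E : TData S (tn S bad tr ω) D)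
    (hQ : QD S bad tr ω Q κ) (ρ : ℝ) {A : ℝ} (hA0 : 0 < A) :
    (IntegrableOn (fun x => (MK S bad tr ω 0 x -
      mt ρ (κ - Real.log A + ρ * Real.eulerMascheroniConstant) 0 x) ^ 2 / x) (Ioi 2) ↔
      InL2 Q ρ A) ∧
    (Tendsto (fun X : ℝ => (Real.log X)⁻¹ * ∫ x in Ioc 2 X,
      |MK S bad tr ω 0 x -
      mt ρ (κ - Real.log A + ρ * Real.eulerMascheroniConstant) 0 x| / x) atTop (𝓝 0) ↔
      InMean Q ρ A) ∧
    ∀ E' : Set ℝ, Tendsto (fun x => MK S bad tr ω 0 x -
      mt ρ (κ - Real.log A + ρ * Real.eulerMascheroniConstant) 0 x) (offE E') (𝓝 0) ↔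
      Tendsto (fun x : ℝ => Q x / (Real.log x) ^ ρ) (offE E') (𝓝 A) := by
  have P := pair E
  obtain ⟨hpos, ⟨q, hqm, hqe, hqb⟩, C, hC⟩ := hQ
  set L' : ℝ := κ - Real.log A + ρ * Real.eulerMascheroniConstant with hL'
  set φ : ℝ → ℝ := rem (ap S (tn S bad tr ω)) ρ L' 0 with hφ
  set γ : ℝ → ℝ := fun u => q u - Real.log A - ρ * Real.log u with hγ
  have hl2 : 0 < Real.log 2 := Real.log_pos (by norm_num)
  have hfφ : ∀ x : ℝ, 1 < x → MK S bad tr ω 0 x - mt ρ L' 0 x =
      φ (Real.log x) := fun x hx => (rem_zero_eq hx).symm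
  have hfγ : ∀ x : ℝ, 1 < x → Real.log (Q x / (A * (Real.log x) ^ ρ)) = γ (Real.log x) := by
    intro x hx
    have hlx : 0 < Real.log x := Real.log_pos hx
    have hQx := hpos x hx
    rw [hγ]
    simp only []
    rw [hqe _ hlx, Real.exp_log (by linarith), Real.log_div hQx.ne' (by positivity),
      Real.log_mul hA0.ne' (by positivity), Real.log_rpow hlx]
    ring
  have hγm : Measurable γ := (hqm.sub_const _).sub (Real.measurable_log.const_mul ρ)
  have hγb : ∀ U, ∃ B, ∀ u, Real.log 2 < u → u ≤ U → |γ u| ≤ B := by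
    intro U
    obtain ⟨B, hB⟩ := hqb U
    refine ⟨B + |Real.log A| + |ρ| * (|Real.log (Real.log 2)| + |Real.log U|), fun u h1 h2 => ?_⟩
    have hu : 0 < u := hl2.trans h1
    have h4 : |Real.log u| ≤ |Real.log (Real.log 2)| + |Real.log U| := by
      have h5 := Real.log_le_log hl2 h1.le
      have h6 := Real.log_le_log hu h2
      rw [abs_le]
      constructor
      · have := neg_abs_le (Real.log (Real.log 2))
        have := abs_nonneg (Real.log U)
        linarith
      · have := le_abs_self (Real.log U)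
        have := abs_nonneg (Real.log (Real.log 2))
        linarith
    calc |q u - Real.log A - ρ * Real.log u| ≤ |q u| + |Real.log A| + |ρ| * |Real.log u| := by
          rw [← abs_mul]
          refine (abs_sub _ _).trans ?_
          gcongr
          exact abs_sub _ _
      _ ≤ _ := by
          have := hB u hu h2
          gcongr
  have herr : ∀ᶠ u : ℝ in atTop, |φ u + γ u| ≤ C / u := by
    filter_upwards [ev_exp hC, eventually_gt_atTop 0] with u h1 hu
    rw [Real.log_exp] at h1
    have h2 := hfφ (Real.exp u) (Real.one_lt_exp_iff.mpr hu)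
    rw [Real.log_exp] at h2
    have h4 : mt ρ L' 0 (Real.exp u) = L' - ρ * (Real.log u + Real.eulerMascheroniConstant) := by
      unfold Pool.Agent.W263.LG.mt
      rw [Real.log_exp, harmonic_zero]
      push_cast
      ring
    rw [← h2, hγ]
    simp only []
    rw [hqe u hu, h4, hL']
    refine le_trans (le_of_eq ?_) h1
    congr 1
    ring
  obtain ⟨t1, t2, t3⟩ := transfer (rem_meas P.am 0) hγm hl2 (rem_bdd P.al hl2) hγb herr
  refine ⟨(sq_log_iff hfφ).trans (t1.trans (sq_log_iff hfγ).symm),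
    (mean_log_iff hfφ).trans (t2.trans (mean_log_iff hfγ).symm), fun E' => ?_⟩
  have hle := offE_le E'
  have hlog : map Real.log (offE E') ≤ atTop := (Real.tendsto_log_atTop.mono_left hle)
  have h1 : Tendsto (fun x => MK S bad tr ω 0 x - mt ρ L' 0 x) (offE E') (𝓝 0) ↔
      Tendsto (fun x => φ (Real.log x)) (offE E') (𝓝 0) := by
    refine tendsto_congr' (Filter.Eventually.filter_mono hle ?_)
    filter_upwards [eventually_gt_atTop 1] with x hx using hfφ x hx
  have h2 : Tendsto (fun x => Real.log (Q x / (A * (Real.log x) ^ ρ))) (offE E')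
      (𝓝 0) ↔ Tendsto (fun x => γ (Real.log x)) (offE E') (𝓝 0) := by
    refine tendsto_congr' (Filter.Eventually.filter_mono hle ?_)
    filter_upwards [eventually_gt_atTop 1] with x hx using hfγ x hx
  have h3 := t3 (map Real.log (offE E')) hlog
  rw [tendsto_map'_iff, tendsto_map'_iff] at h3
  rw [h1]
  refine (h3.trans h2.symm).trans ?_
  constructor
  · intro h
    have h4 := (Real.continuous_exp.tendsto 0).comp h
    rw [Real.exp_zero] at h4
    have h5 := h4.const_mul A
    rw [mul_one] at h5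
    refine h5.congr' (Filter.Eventually.filter_mono hle ?_)
    filter_upwards [eventually_gt_atTop 1] with x hx
    have hlx : 0 < Real.log x := Real.log_pos hx
    have hp := hpos x hx
    simp only [Function.comp]
    rw [Real.exp_log (by positivity)]
    field_simp
  · intro h
    have h4 := (h.div_const A)
    rw [div_self hA0.ne'] at h4
    have h5 := h4.log one_ne_zero
    rw [Real.log_one] at h5
    refine h5.congr fun x => ?_
    rw [div_div, mul_comm A]

/-- step functions are bounded on bounded sets -/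
theorem stp_bd (e : ℕ → ℝ) (U : ℝ) : ∃ B, ∀ u, u ≤ U → |stp e u| ≤ B :=
  floor_bdd (fun n : ℕ => ∑ m ∈ Finset.range (n + 1), e m) Real.exp Real.exp_monotone U

/-- the corrected product -/
theorem cmp_PS (E : TData S (tn S bad tr ω) D) : ∃ C : ℝ, ∀ u : ℝ, 0 < u →
    |Real.log (PS S bad tr ω (Real.exp u)) + MK S bad tr ω 0 (Real.exp u)| ≤ C / u := by
  obtain ⟨C, hC⟩ := RK_MK_zero E
  refine ⟨C, fun u hu => ?_⟩
  refine le_trans (le_of_eq ?_) (hC u hu)
  have h1 : aa S (tn S bad tr ω) u = RK S bad tr ω 0 (Real.exp u) := by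
    have h := ria_RK (S := S) (bad := bad) (tr := tr) (ω := ω) 0 hu
    have e1 : pk 0 u = 1 := by unfold pk; norm_num
    rw [e1, one_mul] at h
    exact h
  have h2 : sc S (tn S bad tr ω) u = ∑ x ∈ (fin_norm S (Real.exp u)).toFinset,
      (if u < 2 * Real.log (S.N x) then ca S (tn S bad tr ω) (x, 1) else 0) := by
    rw [E.sc_eq hu.le]
    refine Finset.sum_congr ?_ fun x hx => ?_
    · ext x
      rw [Set.Finite.mem_toFinset, Set.Finite.mem_toFinset, mem_ofPred_eq, mem_ofPred_eq,
        Nat.le_floor_iff (Real.exp_pos u).le]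
    · rw [Set.Finite.mem_toFinset, mem_ofPred_eq] at hx
      have h3 : Real.log (S.N x) ≤ u := by
        rw [Real.log_le_iff_le_exp (S.N_pos x)]
        exact hx
      have e2 : mm S (tn S bad tr ω) x = ca S (tn S bad tr ω) (x, 1) := by
        unfold mm ca
        norm_num
      by_cases h4 : u < 2 * Real.log (S.N x)
      · rw [if_pos h4, if_pos ⟨by linarith, h3⟩, mul_one, e2]
      · rw [if_neg h4, if_neg (fun h => h4 (by linarith [h.1])), mul_zero]
  rw [log_PS E hu.le, h1, h2]
  congr 1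
  ring

theorem qd_PS (E : TData S (tn S bad tr ω) D) {b : ℝ} (hb : 0 < b) :
    QD S bad tr ω (fun x => b * PS S bad tr ω x) (Real.log b) := by
  refine ⟨fun x _ => mul_pos hb (PS_pos x), ⟨fun u => Real.log b +
    (aa S (tn S bad tr ω) u - sc S (tn S bad tr ω) u), ?_, fun u hu => ?_, fun U => ?_⟩, ?_⟩
  · exact ((TData.aa_meas).sub sc_meas).const_add _
  · rw [Real.log_mul hb.ne' (PS_pos _).ne', log_PS E hu.le]
  · obtain ⟨B1, h1⟩ := stp_bd (fib S.N (cc S (tn S bad tr ω))) U
    obtain ⟨B2, h2⟩ := E.sc_bounded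
    refine ⟨|Real.log b| + (B1 + B2), fun u hu hU => ?_⟩
    exact (abs_add_le _ _).trans (add_le_add le_rfl ((abs_sub _ _).trans
      (add_le_add (h1 u hU) (h2 u hu))))
  · obtain ⟨C, hC⟩ := cmp_PS E
    refine ⟨C, ?_⟩
    filter_upwards [eventually_gt_atTop 1] with x hx
    have h1 := hC (Real.log x) (Real.log_pos hx)
    rw [Real.exp_log (by linarith)] at h1
    rw [Real.log_mul hb.ne' (PS_pos _).ne']
    refine le_trans (le_of_eq ?_) h1
    congr 1
    ring

end Pool.Agent.W524.LQ
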