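import Pool.Agent.W524.LQ.Main

/-! The mean square criterion for functions of polynomial growth. -/

set_option autoImplicit false

namespace Pool.Agent.W524.LQ

open MeasureTheory Filter Topology Set Classical
open Pool.Agent.W263.EP Pool.Agent.W263.MN Pool.Agent.W263.LG Pool.Agent.W263.MS
open Pool.Agent.H341R2 (NormSys)
open Pool.Agent.W524.LV (QQ lead)
open Pool.Agent.W263.BSD (isOpen_half)

variable {S : NormSys} {Bs : Finset S.X} {B : S.X → Polynomial ℂ}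
  {tr : S.X → ℕ → ℝ} {ω : ℝ} {D : ℝ} {F : ℂ → ℂ} {r : ℕ}

/-- the bad factors are bounded in right half planes -/
theorem BB_bdd' (b : ℝ) : ∃ M : ℝ, ∀ s : ℂ, b ≤ s.re → ‖BB S Bs B s‖ ≤ M := by
  have key : ∀ x ∈ Bs, ∃ M : ℝ, ∀ s : ℂ, b ≤ s.re →
      ‖(B x).eval (((S.N x : ℕ) : ℂ) ^ (-s))‖ ≤ M := by
    intro x hx
    obtain ⟨M, hM⟩ := (isCompact_closedBall (0 : ℂ)
      ((S.N x : ℝ) ^ (-b))).exists_bound_of_continuousOn
      (f := fun z : ℂ => (B x).eval z) (B x).continuous.continuousOn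
    refine ⟨M, fun s hs => hM _ ?_⟩
    rw [mem_closedBall_zero_iff, norm_xx x s]
    exact Real.rpow_le_rpow_of_exponent_le (by linarith [N_real_two x]) (by linarith)
  choose! M hM using key
  refine ⟨∏ x ∈ Bs, M x, fun s hs => ?_⟩
  unfold BB
  rw [norm_prod]
  exact Finset.prod_le_prod (fun _ _ => norm_nonneg _) fun x hx => hM x hx s hs

/-- **The criterion for functions of polynomial growth.** -/
theorem main_growth (E : TData S (tn S (Bs : Set S.X) tr ω) D)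
    (hB : ∀ x ∈ Bs, ∀ s : ℂ, (ω + 1) / 2 ≤ s.re → (B x).eval (((S.N x : ℕ) : ℂ) ^ (-s)) ≠ 0)
    (hB0 : ∀ x ∈ Bs, (B x).eval 0 ≠ 0)
    (hd : ∀ s : ℂ, (ω + 1) / 2 - 1 < s.re → DifferentiableAt ℂ F s)
    (he : ∀ s : ℂ, (ω + 2) / 2 < s.re → F s = LFB S Bs B tr s)
    (hr : analyticOrderAt F (((ω + 1) / 2 : ℝ) : ℂ) = r)
    (hg : ∃ (C : ℝ) (A : ℕ), ∀ s : ℂ, (ω + 1) / 2 - 1 < s.re → ‖F s‖ ≤ C * (1 + ‖s‖) ^ A) :
    (HardyLog ((ω + 1) / 2) F ↔ ∀ s : ℂ, (ω + 1) / 2 < s.re → F s ≠ 0) ∧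
    ∀ (q A : ℝ), 0 < A → List.TFAE [
      (∀ s : ℂ, (ω + 1) / 2 < s.re → F s ≠ 0) ∧ (r : ℝ) = q ∧
        A = Real.exp (q * Real.eulerMascheroniConstant) / lead F ((ω + 1) / 2) r,
      InL2 (QQ S Bs B tr ω) q A,
      InMean (QQ S Bs B tr ω) q A,
      (∃ k : ℕ, ∀ ε : ℝ, 0 < ε → ∀ᶠ x : ℝ in atTop, RK S (Bs : Set S.X) tr ω k x ≤ x ^ ε) ∧
        OffFinLog (QQ S Bs B tr ω) q A] := by
  set F1 : ℂ → ℂ := fun s => F s * BB S Bs B s with hF1
  have hAn : AnalyticAt ℂ F (((ω + 1) / 2 : ℝ) : ℂ) := by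
    refine Complex.analyticAt_iff_eventually_differentiableAt.mpr ?_
    filter_upwards [(isOpen_half ((ω + 1) / 2 - 1)).mem_nhds
      (show (ω + 1) / 2 - 1 < ((((ω + 1) / 2 : ℝ)) : ℂ).re by
        rw [Complex.ofReal_re]; linarith)] with z hz using hd z hz
  have hΛ : 0 < lead F ((ω + 1) / 2) r := (lead_limit_at hAn hr).1
  have hbc := bc_pos (S := S) (Bs := Bs) (B := B) (ω := ω) hB
  have hA1 : AnalyticAt ℂ F1 (((ω + 1) / 2 : ℝ) : ℂ) := hAn.mul (BB_diff.analyticAt _)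
  have hr1 := Pool.Agent.W524.LV.order_BB (S := S) (Bs := Bs) (B := B) hB hAn hr
  have hn : meromorphicOrderAt F1 (((ω + 1) / 2 : ℝ) : ℂ) = ((r : ℤ) : WithTop ℤ) := by
    rw [hA1.meromorphicOrderAt_eq, hF1, hr1]; rfl
  have hL1 : CLim ((ω + 1) / 2) F1 ((r : ℤ) : ℝ) (Real.log (lead F ((ω + 1) / 2) r *
      bc S Bs B ω)) := by
    rw [Int.cast_natCast]
    exact centre_clim (S := S) (Bs := Bs) (B := B) hB hAn hr
  have hd1 : ∀ s : ℂ, (ω + 1) / 2 - 1 < s.re → DifferentiableAt ℂ F1 s := fun s hs =>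
    (hd s hs).mul BB_diff.differentiableAt
  have he1 : ∀ s : ℂ, (ω + 2) / 2 < s.re → F1 s = LF S (Bs : Set S.X) tr s := by
    intro s hs
    rw [hF1]
    simp only []
    rw [he s hs, LFB_eq E hs, mul_assoc, inv_mul_cancel₀, mul_one]
    exact BB_ne hB (by linarith)
  have hg1 : ∃ (C : ℝ) (A : ℕ), ∀ s : ℂ, (ω + 1) / 2 - 1 < s.re →
      ‖F1 s‖ ≤ C * (1 + ‖s‖) ^ A := by
    obtain ⟨M, hM⟩ := BB_bdd' (S := S) (Bs := Bs) (B := B) ((ω + 1) / 2 - 1)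
    obtain ⟨C, A, hC⟩ := hg
    refine ⟨|C| * |M|, A, fun s hs => ?_⟩
    rw [hF1]
    simp only []
    rw [norm_mul]
    have h1 := hC s hs
    have h2 := hM s hs.le
    have h3 : 0 ≤ (1 + ‖s‖) ^ A := by positivity
    calc ‖F s‖ * ‖BB S Bs B s‖ ≤ (|C| * (1 + ‖s‖) ^ A) * |M| :=
          mul_le_mul (h1.trans (mul_le_mul_of_nonneg_right (le_abs_self C) h3))
            (h2.trans (le_abs_self M)) (norm_nonneg _) (by positivity)
      _ = _ := by ring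
  have hz : (∀ s : ℂ, (ω + 1) / 2 < s.re → F1 s ≠ 0) ↔ ∀ s : ℂ, (ω + 1) / 2 < s.re → F s ≠ 0 := by
    refine forall₂_congr fun s hs => ?_
    have := BB_ne hB hs.le
    rw [hF1]
    simp only []
    rw [mul_ne_zero_iff]
    tauto
  have hgr := (growth_means E (fun s hs => hd1 s (by linarith)) he1 hA1.meromorphicAt hn hL1
    (by obtain ⟨C, A, hC⟩ := hg1; exact ⟨C, A, fun s hs => hC s (by linarith)⟩)).out 0 1
  have hsub : (∀ s : ℂ, (ω + 1) / 2 < s.re → F1 s ≠ 0) ↔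
      ∃ k : ℕ, ∀ ε : ℝ, 0 < ε → ∀ᶠ x : ℝ in atTop, RK S (Bs : Set S.X) tr ω k x ≤ x ^ ε := by
    constructor
    · intro h
      obtain ⟨K, hK⟩ := hgr.mp h
      obtain ⟨C, hC⟩ := RK_MK E 1
      refine ⟨1, fun ε hε => ?_⟩
      filter_upwards [hK, hC, loglog_le_rpow (|K| + |C|) hε, one_le_log,
        Pool.Agent.W263.LG.loglog_atTop.eventually (eventually_ge_atTop 1)] with x h1 h2 h3 h4 h5
      have h6 := (abs_le.mp h2).2
      have h7 := le_abs_self K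
      have h8 := le_abs_self C
      have h9 := abs_nonneg C
      nlinarith
    · rintro ⟨k, h⟩
      exact rh_of_subexp E (fun s hs => hd1 s (by linarith)) he1 h
  refine ⟨?_, fun q A hA => ?_⟩
  · have k1 := sq_iff_hardy E (fun s hs => hd1 s (by linarith)) he1 hA1.meromorphicAt hn hL1
      ((r : ℤ) : ℝ) (Real.log (lead F ((ω + 1) / 2) r * bc S Bs B ω))
    have k2 := (ms_tfae_exc E hd1 he1 hn hL1 hg1 ((r : ℤ) : ℝ)
      (Real.log (lead F ((ω + 1) / 2) r * bc S Bs B ω))).out 0 1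
    rw [← hardy_BB (S := S) (Bs := Bs) (B := B) (ω := ω) hB hB0, ← hz]
    constructor
    · intro h
      exact (k2.mpr (k1.mpr ⟨h, rfl, rfl⟩)).1
    · intro h
      exact (k1.mp (k2.mp ⟨h, rfl, rfl⟩)).1
  · obtain ⟨c1, c2, c3⟩ := qconv E (qd_QQ E hB) q hA
    have key := ms_tfae_exc E hd1 he1 hn hL1 hg1 q
      (Real.log (bc S Bs B ω) - Real.log A + q * Real.eulerMascheroniConstant)
    rw [hz, const_eq hΛ hbc hA, Int.cast_natCast] at key
    have k12 := key.out 0 1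
    have k13 := key.out 0 2
    have k14 := key.out 0 3
    tfae_have 1 ↔ 2 := k12.trans c1
    tfae_have 1 ↔ 3 := k13.trans c2
    tfae_have 1 ↔ 4 := k14.trans (and_congr (hgr.symm.trans hsub)
      (exists_congr fun E' => and_congr_right fun _ => c3 E'))
    tfae_finish

end Pool.Agent.W524.LQ
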