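import Pool.Agent.W263.MS.Hardy
import Pool.Agent.W263.EP.Brk

/-! The Hardy class condition and finitely many Euler factors. -/

set_option autoImplicit false

namespace Pool.Agent.W524.LQ

open MeasureTheory Filter Topology Set Classical
open Pool.Agent.W263.EP Pool.Agent.W263.MS
open Pool.Agent.H341R2 (NormSys)
open scoped ENNReal

/-- multiplication with a function with bounded logarithm -/
theorem hardy_mul {c : ℝ} {F H : ℂ → ℂ} (hF : HardyLog c F) {ℓ' : ℂ → ℂ} {M : ℝ}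
    (h : ∀ s : ℂ, c < s.re → DifferentiableAt ℂ ℓ' s ∧ Complex.exp (ℓ' s) = H s ∧ ‖ℓ' s‖ ≤ M) :
    HardyLog c (fun s => F s * H s) := by
  obtain ⟨ℓ, h1, K, hK⟩ := hF
  have hint : Integrable (fun t : ℝ => 2 * M ^ 2 * (1 + t ^ 2)⁻¹) :=
    integrable_inv_one_add_sq.const_mul _
  refine ⟨fun s => ℓ s + ℓ' s, fun s hs => ⟨(h1 s hs).1.add (h s hs).1, ?_⟩,
    2 * |K| + ∫ t : ℝ, 2 * M ^ 2 * (1 + t ^ 2)⁻¹, fun σ h2 h3 => ?_⟩
  · rw [Complex.exp_add, (h1 s hs).2, (h s hs).2.1]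
  have hre : ∀ t : ℝ, c < ((σ : ℂ) + t * Complex.I).re := by
    intro t
    simpa using h2
  have h4 : ∀ t : ℝ, ENNReal.ofReal (‖ℓ ((σ : ℂ) + t * Complex.I) +
      ℓ' ((σ : ℂ) + t * Complex.I)‖ ^ 2 / (1 + t ^ 2)) ≤
      2 * ENNReal.ofReal (‖ℓ ((σ : ℂ) + t * Complex.I)‖ ^ 2 / (1 + t ^ 2)) +
        ENNReal.ofReal (2 * M ^ 2 * (1 + t ^ 2)⁻¹) := by
    intro t
    have e2 : (2 : ℝ≥0∞) = ENNReal.ofReal 2 := by norm_num
    rw [e2, ← ENNReal.ofReal_mul (by norm_num), ← ENNReal.ofReal_add (by positivity)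
      (by positivity)]
    refine ENNReal.ofReal_le_ofReal ?_
    have h5 := norm_add_le (ℓ ((σ : ℂ) + t * Complex.I)) (ℓ' ((σ : ℂ) + t * Complex.I))
    have h6 := (h _ (hre t)).2.2
    set x := ‖ℓ ((σ : ℂ) + t * Complex.I)‖
    set y := ‖ℓ' ((σ : ℂ) + t * Complex.I)‖
    have hx : 0 ≤ x := norm_nonneg _
    have hy : 0 ≤ y := norm_nonneg _
    have h7 : ‖ℓ ((σ : ℂ) + t * Complex.I) + ℓ' ((σ : ℂ) + t * Complex.I)‖ ^ 2 ≤
        2 * x ^ 2 + 2 * M ^ 2 := by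
      calc _ ≤ (x + y) ^ 2 := pow_le_pow_left₀ (norm_nonneg _) h5 2
        _ ≤ 2 * x ^ 2 + 2 * y ^ 2 := by nlinarith [sq_nonneg (x - y)]
        _ ≤ _ := by nlinarith [pow_le_pow_left₀ hy h6 2]
    have h8 : (0 : ℝ) < 1 + t ^ 2 := by positivity
    calc _ ≤ (2 * x ^ 2 + 2 * M ^ 2) / (1 + t ^ 2) := div_le_div_of_nonneg_right h7 h8.le
      _ = _ := by field_simp
  refine (lintegral_mono h4).trans ?_
  have hm : Measurable fun t : ℝ => ENNReal.ofReal (2 * M ^ 2 * (1 + t ^ 2)⁻¹) := by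
    refine ENNReal.measurable_ofReal.comp ?_
    exact ((measurable_const.add (measurable_id.pow_const 2)).inv).const_mul _
  rw [lintegral_add_right _ hm, lintegral_const_mul' _ _ (by norm_num),
    ← ofReal_integral_eq_lintegral_ofReal hint (Eventually.of_forall fun t => by positivity),
    ENNReal.ofReal_add (by positivity) (integral_nonneg fun t => by positivity),
    ENNReal.ofReal_mul (by norm_num)]
  refine add_le_add ?_ le_rfl
  have e2 : (2 : ℝ≥0∞) = ENNReal.ofReal 2 := by norm_num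
  rw [← e2]
  exact mul_le_mul_right ((hK σ h2 h3).trans (ENNReal.ofReal_le_ofReal (le_abs_self K))) _

theorem hardy_congr {c : ℝ} {F H : ℂ → ℂ} (hF : HardyLog c F)
    (h : ∀ s : ℂ, c < s.re → F s = H s) : HardyLog c H := by
  obtain ⟨ℓ, h1, K, hK⟩ := hF
  exact ⟨ℓ, fun s hs => ⟨(h1 s hs).1, by rw [(h1 s hs).2, h s hs]⟩, K, hK⟩

/-- a polynomial without zeros on a closed disc has an analytic logarithm there -/
theorem mset_log (ρ : ℝ) (m : Multiset ℂ) (hm : ∀ a ∈ m, ρ < ‖a‖) (hρ : 0 ≤ ρ) :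
    ∃ ℓ : ℂ → ℂ, ∀ z : ℂ, ‖z‖ ≤ ρ → DifferentiableAt ℂ ℓ z ∧
      Complex.exp (ℓ z) = (m.map (fun a => z - a)).prod := by
  induction m using Multiset.induction with
  | empty => exact ⟨fun _ => 0, fun z _ => ⟨differentiableAt_const _, by simp⟩⟩
  | cons a m ih =>
    obtain ⟨ℓ, hℓ⟩ := ih fun b hb => hm b (Multiset.mem_cons_of_mem hb)
    have ha := hm a (Multiset.mem_cons_self a m)
    have ha0 : a ≠ 0 := norm_pos_iff.mp (by linarith)
    refine ⟨fun z => (Complex.log (-a) + Complex.log (1 - z / a)) + ℓ z, fun z hz => ?_⟩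
    have h1 : ‖z / a‖ < 1 := by
      rw [norm_div, div_lt_one (norm_pos_iff.mpr ha0)]
      linarith
    have h2 : 1 - z / a ∈ Complex.slitPlane := by
      left
      have := Complex.re_le_norm (z / a)
      simp only [Complex.sub_re, Complex.one_re]
      linarith
    have h3 : 1 - z / a ≠ 0 := Complex.slitPlane_ne_zero h2
    refine ⟨?_, ?_⟩
    · refine DifferentiableAt.add (DifferentiableAt.add (differentiableAt_const _) ?_) (hℓ z hz).1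
      exact DifferentiableAt.clog (by fun_prop) h2
    · rw [Complex.exp_add, Complex.exp_add, Complex.exp_log (neg_ne_zero.mpr ha0),
        Complex.exp_log h3, (hℓ z hz).2, Multiset.map_cons, Multiset.prod_cons]
      congr 1
      field_simp
      ring

theorem poly_log (P : Polynomial ℂ) {ρ : ℝ} (hρ : 0 ≤ ρ)
    (hP : ∀ z : ℂ, ‖z‖ ≤ ρ → P.eval z ≠ 0) : ∃ (ℓ : ℂ → ℂ) (M : ℝ), ∀ z : ℂ, ‖z‖ ≤ ρ →
      DifferentiableAt ℂ ℓ z ∧ Complex.exp (ℓ z) = P.eval z ∧ ‖ℓ z‖ ≤ M := by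
  have hP0 : P ≠ 0 := by
    intro h
    exact hP 0 (by simpa using hρ) (by rw [h, Polynomial.eval_zero])
  obtain ⟨ℓ, hℓ⟩ := mset_log ρ P.roots (fun a ha => by
    by_contra h
    exact hP a (not_lt.mp h) (Polynomial.isRoot_of_mem_roots ha)) hρ
  have hd : ∀ z : ℂ, ‖z‖ ≤ ρ → DifferentiableAt ℂ (fun z => Complex.log P.leadingCoeff + ℓ z) z :=
    fun z hz => (differentiableAt_const _).add (hℓ z hz).1
  obtain ⟨M, hM⟩ := (isCompact_closedBall (0 : ℂ) ρ).exists_bound_of_continuousOn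
    (f := fun z => Complex.log P.leadingCoeff + ℓ z) fun z hz =>
      (hd z (by simpa using hz)).continuousAt.continuousWithinAt
  refine ⟨_, M, fun z hz => ⟨hd z hz, ?_, hM z (by simpa using hz)⟩⟩
  rw [Complex.exp_add, Complex.exp_log (Polynomial.leadingCoeff_ne_zero.mpr hP0), (hℓ z hz).2,
    (IsAlgClosed.splits P).eval_eq_prod_roots]

section BB

variable {S : NormSys} {Bs : Finset S.X} {B : S.X → Polynomial ℂ} {ω : ℝ}

theorem norm_xx (x : S.X) (s : ℂ) : ‖((S.N x : ℕ) : ℂ) ^ (-s)‖ = (S.N x : ℝ) ^ (-s.re) := by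
  rw [Complex.norm_natCast_cpow_of_pos (by have := S.two_le x; omega), Complex.neg_re]

/-- the finitely many factors have bounded logarithms -/
theorem factor_log (hB : ∀ x ∈ Bs, ∀ s : ℂ, (ω + 1) / 2 ≤ s.re →
    (B x).eval (((S.N x : ℕ) : ℂ) ^ (-s)) ≠ 0) (hB0 : ∀ x ∈ Bs, (B x).eval 0 ≠ 0)
    {x : S.X} (hx : x ∈ Bs) :
    ∃ (ℓ : ℂ → ℂ) (M : ℝ), ∀ s : ℂ, (ω + 1) / 2 < s.re → DifferentiableAt ℂ ℓ s ∧
      Complex.exp (ℓ s) = (B x).eval (((S.N x : ℕ) : ℂ) ^ (-s)) ∧ ‖ℓ s‖ ≤ M := by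
  have hN := S.N_pos x
  have hN1 : (1 : ℝ) < S.N x := by
    have := S.two_le x
    have h : (2 : ℝ) ≤ S.N x := by exact_mod_cast this
    linarith
  have hl : 0 < Real.log (S.N x) := Real.log_pos hN1
  have hNc : ((S.N x : ℕ) : ℂ) ≠ 0 := S.N_ne x
  set ρ : ℝ := (S.N x : ℝ) ^ (-((ω + 1) / 2)) with hρ
  have hρ0 : 0 < ρ := Real.rpow_pos_of_pos hN _
  obtain ⟨ℓ, M, h⟩ := poly_log (B x) hρ0.le fun z hz => by
    by_cases hz0 : z = 0
    · rw [hz0]; exact hB0 x hx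
    · set s : ℂ := -(Complex.log z / (Real.log (S.N x) : ℂ)) with hs
      have e1 : ((S.N x : ℕ) : ℂ) ^ (-s) = z := by
        rw [Complex.cpow_def_of_ne_zero hNc, hs, neg_neg]
        have e2 : Complex.log ((S.N x : ℕ) : ℂ) = ((Real.log (S.N x) : ℝ) : ℂ) := by
          rw [Complex.ofReal_log hN.le, Complex.ofReal_natCast]
        rw [e2, mul_div_cancel₀ _ (by exact_mod_cast hl.ne'), Complex.exp_log hz0]
      have e3 : (ω + 1) / 2 ≤ s.re := by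
        have h1 := norm_xx x s
        rw [e1] at h1
        rw [h1, hρ] at hz
        have h2 := (Real.rpow_le_rpow_left_iff hN1).mp hz
        linarith
      have := hB x hx s e3
      rwa [e1] at this
  have hz : ∀ s : ℂ, (ω + 1) / 2 < s.re → ‖((S.N x : ℕ) : ℂ) ^ (-s)‖ ≤ ρ := by
    intro s hs
    rw [norm_xx, hρ]
    exact Real.rpow_le_rpow_of_exponent_le hN1.le (by linarith)
  refine ⟨fun s => ℓ (((S.N x : ℕ) : ℂ) ^ (-s)), M, fun s hs => ⟨?_, (h _ (hz s hs)).2⟩⟩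
  have h1 : DifferentiableAt ℂ (fun s : ℂ => ((S.N x : ℕ) : ℂ) ^ (-s)) s :=
    DifferentiableAt.const_cpow (by fun_prop) (Or.inl hNc)
  exact DifferentiableAt.comp (g := ℓ) s (h _ (hz s hs)).1 h1

theorem BB_log (hB : ∀ x ∈ Bs, ∀ s : ℂ, (ω + 1) / 2 ≤ s.re →
    (B x).eval (((S.N x : ℕ) : ℂ) ^ (-s)) ≠ 0) (hB0 : ∀ x ∈ Bs, (B x).eval 0 ≠ 0) :
    ∃ (ℓ : ℂ → ℂ) (M : ℝ), ∀ s : ℂ, (ω + 1) / 2 < s.re → DifferentiableAt ℂ ℓ s ∧
      Complex.exp (ℓ s) = BB S Bs B s ∧ ‖ℓ s‖ ≤ M := by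
  have key : ∀ x : S.X, ∃ (ℓ : ℂ → ℂ) (M : ℝ), x ∈ Bs → ∀ s : ℂ, (ω + 1) / 2 < s.re →
      DifferentiableAt ℂ ℓ s ∧
      Complex.exp (ℓ s) = (B x).eval (((S.N x : ℕ) : ℂ) ^ (-s)) ∧ ‖ℓ s‖ ≤ M := by
    intro x
    by_cases hx : x ∈ Bs
    · obtain ⟨ℓ, M, h⟩ := factor_log hB hB0 hx
      exact ⟨ℓ, M, fun _ => h⟩
    · exact ⟨fun _ => 0, 0, fun h => absurd h hx⟩
  choose ℓ M h using key
  refine ⟨fun s => ∑ x ∈ Bs, ℓ x s, ∑ x ∈ Bs, M x, fun s hs => ⟨?_, ?_, ?_⟩⟩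
  · exact DifferentiableAt.fun_sum fun x hx => (h x hx s hs).1
  · rw [Complex.exp_sum]
    exact Finset.prod_congr rfl fun x hx => (h x hx s hs).2.1
  · exact norm_sum_le_of_le _ fun x hx => (h x hx s hs).2.2

/-- **The Hardy class condition does not depend on finitely many factors.** -/
theorem hardy_BB (hB : ∀ x ∈ Bs, ∀ s : ℂ, (ω + 1) / 2 ≤ s.re →
    (B x).eval (((S.N x : ℕ) : ℂ) ^ (-s)) ≠ 0) (hB0 : ∀ x ∈ Bs, (B x).eval 0 ≠ 0) {F : ℂ → ℂ} :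
    HardyLog ((ω + 1) / 2) (fun s => F s * BB S Bs B s) ↔ HardyLog ((ω + 1) / 2) F := by
  obtain ⟨ℓ, M, h⟩ := BB_log hB hB0
  constructor
  · intro h1
    have h2 := hardy_mul (H := fun s => (BB S Bs B s)⁻¹) (ℓ' := fun s => -ℓ s) (M := M) h1
      fun s hs => ⟨(h s hs).1.neg, by rw [Complex.exp_neg, (h s hs).2.1], by
        rw [norm_neg]; exact (h s hs).2.2⟩
    refine hardy_congr h2 fun s hs => ?_
    rw [mul_assoc, mul_inv_cancel₀ (BB_ne hB hs.le), mul_one]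
  · intro h1
    exact hardy_mul h1 h

end BB

end Pool.Agent.W524.LQ
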