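import Pool.Agent.W524.LQ.Conv
import Pool.Agent.W524.LQ.Hl
import Pool.Agent.W524.LV.Ext

/-! The mean square criterion for Euler products over norm systems. -/

set_option autoImplicit false

namespace Pool.Agent.W524.LQ

open MeasureTheory Filter Topology Set Classical
open Pool.Agent.W263.EP Pool.Agent.W263.MN Pool.Agent.W263.LG Pool.Agent.W263.MS
open Pool.Agent.H341R2 (NormSys)
open Pool.Agent.W524.LV (QQ lead)
open Pool.Agent.W263.BSD (isOpen_half)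

/-- real points near a real point -/
theorem freq_real {p : ℂ → Prop} {a : ℝ} (h : ∀ᶠ s : ℝ in 𝓝[≠] a, p s) :
    ∃ᶠ z : ℂ in 𝓝[≠] (a : ℂ), p z := by
  have h1 : Tendsto (fun s : ℝ => (s : ℂ)) (𝓝[≠] a) (𝓝[≠] (a : ℂ)) := by
    refine tendsto_nhdsWithin_of_tendsto_nhds_of_eventually_within _
      (Complex.continuous_ofReal.continuousAt.tendsto.mono_left nhdsWithin_le_nhds) ?_
    filter_upwards [self_mem_nhdsWithin] with s hs
    have : s ≠ a := hs
    simpa using this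
  exact h1.frequently h.frequently

/-- two continuations along a real half line agree -/
theorem cont_unique {c c' : ℝ} (hcc : c ≤ c') {F G : ℂ → ℂ}
    (hF : ∀ s : ℝ, c < s → AnalyticAt ℂ F s) (hG : ∀ s : ℝ, c < s → AnalyticAt ℂ G s)
    (h : ∀ s : ℝ, c' < s → F s = G s) : ∀ s : ℝ, c < s → F s = G s := by
  have hU : IsPreconnected ((fun s : ℝ => (s : ℂ)) '' Ioi c) :=
    isPreconnected_Ioi.image _ Complex.continuous_ofReal.continuousOn
  have hF' : AnalyticOnNhd ℂ F ((fun s : ℝ => (s : ℂ)) '' Ioi c) := by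
    rintro _ ⟨s, hs, rfl⟩
    exact hF s hs
  have hG' : AnalyticOnNhd ℂ G ((fun s : ℝ => (s : ℂ)) '' Ioi c) := by
    rintro _ ⟨s, hs, rfl⟩
    exact hG s hs
  have h0 : F =ᶠ[𝓝 ((c' + 1 : ℝ) : ℂ)] G := by
    refine ((hF (c' + 1) (by linarith)).frequently_eq_iff_eventually_eq
      (hG (c' + 1) (by linarith))).mp (freq_real ?_)
    refine Filter.Eventually.filter_mono nhdsWithin_le_nhds ?_
    filter_upwards [lt_mem_nhds (show c' < c' + 1 by linarith)] with s hs using h s hs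
  have h1 := hF'.eqOn_of_preconnected_of_eventuallyEq hG' hU
    ⟨c' + 1, show c < c' + 1 by linarith, rfl⟩ h0
  exact fun s hs => h1 ⟨s, hs, rfl⟩

/-- agreement on a half disc -/
theorem glue {c : ℝ} {F G : ℂ → ℂ} (hF : AnalyticAt ℂ F c)
    (hG : DifferentiableOn ℂ G {s : ℂ | c < s.re}) (h : ∀ s : ℝ, c < s → F s = G s) :
    ∃ G' : ℂ → ℂ, (∀ s : ℂ, c < s.re → G' s = G s) ∧ G' =ᶠ[𝓝 (c : ℂ)] F := by
  obtain ⟨δ, hδ, hFδ⟩ := hF.exists_ball_analyticOnNhd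
  set U : Set ℂ := Metric.ball (c : ℂ) δ ∩ {s : ℂ | c < s.re} with hU
  have hUc : IsPreconnected U :=
    ((convex_ball _ _).inter (convex_halfSpace_re_gt c)).isPreconnected
  have hF' : AnalyticOnNhd ℂ F U := fun s hs => hFδ s hs.1
  have hG' : AnalyticOnNhd ℂ G U := fun s hs => hG.analyticOnNhd (isOpen_half c) s hs.2
  have hm : ((c + δ / 2 : ℝ) : ℂ) ∈ U := by
    refine ⟨?_, ?_⟩
    · rw [Metric.mem_ball, Complex.dist_eq, ← Complex.ofReal_sub, Complex.norm_real,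
        add_sub_cancel_left, Real.norm_eq_abs, abs_of_pos (by linarith)]
      linarith
    · show c < ((c + δ / 2 : ℝ) : ℂ).re
      rw [Complex.ofReal_re]; linarith
  have h0 : F =ᶠ[𝓝 ((c + δ / 2 : ℝ) : ℂ)] G := by
    refine ((hF' _ hm).frequently_eq_iff_eventually_eq (hG' _ hm)).mp (freq_real ?_)
    refine Filter.Eventually.filter_mono nhdsWithin_le_nhds ?_
    filter_upwards [lt_mem_nhds (show c < c + δ / 2 by linarith)] with s hs using h s hs
  have h1 := hF'.eqOn_of_preconnected_of_eventuallyEq hG' hUc hm h0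
  refine ⟨fun s => if s ∈ Metric.ball (c : ℂ) δ then F s else G s, fun s hs => ?_, ?_⟩
  · simp only []
    split_ifs with hb
    · exact h1 ⟨hb, hs⟩
    · rfl
  · filter_upwards [Metric.ball_mem_nhds (c : ℂ) hδ] with s hs
    rw [if_pos hs]

variable {S : NormSys} {Bs : Finset S.X} {B : S.X → Polynomial ℂ}
  {tr : S.X → ℕ → ℝ} {ω : ℝ} {D : ℝ} {F : ℂ → ℂ} {r : ℕ}

/-- the unconditional criterion without additional factors -/
theorem sq_real (E : TData S (tn S (Bs : Set S.X) tr ω) D) {F1 : ℂ → ℂ}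
    (hAn : AnalyticAt ℂ F1 (((ω + 1) / 2 : ℝ) : ℂ))
    (hr : analyticOrderAt F1 (((ω + 1) / 2 : ℝ) : ℂ) = r) {L : ℝ}
    (hL : CLim ((ω + 1) / 2) F1 r L) {G1 : ℂ → ℂ} (hG : IsFull S (Bs : Set S.X) tr ω G1)
    (hFG : ∀ s : ℝ, (ω + 1) / 2 < s → F1 s = G1 s) (q L' : ℝ) :
    IntegrableOn (fun x => (MK S (Bs : Set S.X) tr ω 0 x -
      Pool.Agent.W263.LG.mt q L' 0 x) ^ 2 / x) (Ioi 2) ↔
      HardyLog ((ω + 1) / 2) G1 ∧ (r : ℝ) = q ∧ L = L' := by
  obtain ⟨G', h1, h2⟩ := glue hAn hG.1 hFG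
  have hd : ∀ s : ℂ, (ω + 1) / 2 < s.re → DifferentiableAt ℂ G' s := by
    intro s hs
    refine (hG.1.differentiableAt ((isOpen_half _).mem_nhds hs)).congr_of_eventuallyEq ?_
    filter_upwards [(isOpen_half ((ω + 1) / 2)).mem_nhds hs] with z hz using h1 z hz
  have hA' : AnalyticAt ℂ G' (((ω + 1) / 2 : ℝ) : ℂ) := hAn.congr h2.symm
  have hn : meromorphicOrderAt G' (((ω + 1) / 2 : ℝ) : ℂ) = ((r : ℤ) : WithTop ℤ) := by
    rw [hA'.meromorphicOrderAt_eq, analyticOrderAt_congr h2, hr]; rfl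
  have hL' : CLim ((ω + 1) / 2) G' ((r : ℤ) : ℝ) L := by
    rw [Int.cast_natCast]
    unfold CLim at hL ⊢
    refine hL.congr' ?_
    filter_upwards [self_mem_nhdsWithin] with s hs
    have hs' : (ω + 1) / 2 < s := hs
    rw [h1 s (by simpa using hs'), hFG s hs']
  have key := sq_iff_hardy E hd (fun s hs => by
    rw [h1 s (by linarith)]; exact hG.2.2 s hs) hA'.meromorphicAt hn hL' q L'
  rw [Int.cast_natCast] at key
  rw [key]
  refine and_congr_left fun _ => ⟨fun h => hardy_congr h h1, fun h => hardy_congr h fun s hs =>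
    (h1 s hs).symm⟩

/-- the centre -/
theorem centre_clim (hB : ∀ x ∈ Bs, ∀ s : ℂ, (ω + 1) / 2 ≤ s.re →
    (B x).eval (((S.N x : ℕ) : ℂ) ^ (-s)) ≠ 0) (hAn : AnalyticAt ℂ F (((ω + 1) / 2 : ℝ) : ℂ))
    (hr : analyticOrderAt F (((ω + 1) / 2 : ℝ) : ℂ) = r) :
    CLim ((ω + 1) / 2) (fun s => F s * BB S Bs B s) r
      (Real.log (lead F ((ω + 1) / 2) r * bc S Bs B ω)) := by
  have h1 := Pool.Agent.W524.LV.lead_lim hAn hr
  have h2 := lead_bad (B := B) (Bs := Bs) h1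
  refine clim_of_lead (mul_pos (lead_limit_at hAn hr).1 (bc_pos hB)) (h2.congr fun s => ?_)
  rw [Real.rpow_natCast]

/-- the expected constant -/
theorem const_eq {Λ b A q : ℝ} (hΛ : 0 < Λ) (hb : 0 < b) (hA : 0 < A) :
    Real.log (Λ * b) = Real.log b - Real.log A + q * Real.eulerMascheroniConstant ↔
      A = Real.exp (q * Real.eulerMascheroniConstant) / Λ := by
  rw [const_iff (mul_pos hΛ hb) hA, Real.exp_log hb]
  have : b * Real.exp (q * Real.eulerMascheroniConstant) / (Λ * b) =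
      Real.exp (q * Real.eulerMascheroniConstant) / Λ := by
    field_simp
  rw [this]

theorem qd_QQ (E : TData S (tn S (Bs : Set S.X) tr ω) D)
    (hB : ∀ x ∈ Bs, ∀ s : ℂ, (ω + 1) / 2 ≤ s.re → (B x).eval (((S.N x : ℕ) : ℂ) ^ (-s)) ≠ 0) :
    QD S (Bs : Set S.X) tr ω (QQ S Bs B tr ω) (Real.log (bc S Bs B ω)) :=
  qd_PS E (bc_pos hB)

/-- the mean determines everything -/
theorem mean_real (E : TData S (tn S (Bs : Set S.X) tr ω) D)
    (hB : ∀ x ∈ Bs, ∀ s : ℂ, (ω + 1) / 2 ≤ s.re → (B x).eval (((S.N x : ℕ) : ℂ) ^ (-s)) ≠ 0)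
    (hF : IsContB S Bs B tr ω F) (hAn : AnalyticAt ℂ F (((ω + 1) / 2 : ℝ) : ℂ))
    (hr : analyticOrderAt F (((ω + 1) / 2 : ℝ) : ℂ) = r) {q A : ℝ} (hA : 0 < A)
    (h : InMean (QQ S Bs B tr ω) q A) :
    ((r : ℝ) = q ∧ A = Real.exp (q * Real.eulerMascheroniConstant) / lead F ((ω + 1) / 2) r) ∧
    ∃ G1 : ℂ → ℂ, IsFull S (Bs : Set S.X) tr ω G1 ∧
      ∀ s : ℝ, (ω + 1) / 2 < s → F s * BB S Bs B s = G1 s := by
  have hΛ := (lead_limit_at hAn hr).1
  obtain ⟨_, c2, _⟩ := qconv E (qd_QQ E hB) q hA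
  obtain ⟨G1, hG, hGL⟩ := of_mean E (c2.mpr h)
  have hF1 := hF.isCont E hB
  have hG' : ∀ s : ℝ, (ω + 1) / 2 < s → AnalyticAt ℂ G1 s := fun s hs =>
    hG.1.analyticOnNhd (isOpen_half _) s (by
      show (ω + 1) / 2 < (s : ℂ).re
      rwa [Complex.ofReal_re])
  have huni := cont_unique (c' := (ω + 2) / 2) (by linarith) hF1.1 hG' fun s hs =>
    (hF1.2 s hs).trans (hG.2.2 s (by simpa using hs)).symm
  have h5 : CLim ((ω + 1) / 2) (fun s => F s * BB S Bs B s) q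
      (Real.log (bc S Bs B ω) - Real.log A + q * Real.eulerMascheroniConstant) := by
    unfold CLim at hGL ⊢
    refine hGL.congr' ?_
    filter_upwards [self_mem_nhdsWithin] with s hs
    rw [huni s hs]
  obtain ⟨h6, h7⟩ := clim_unique (centre_clim hB hAn hr) h5
  exact ⟨⟨h6, (const_eq hΛ (bc_pos hB) hA).mp h7⟩, G1, hG, huni⟩

/-- square integrability implies convergence in the mean -/
theorem mean_of_L2 (E : TData S (tn S (Bs : Set S.X) tr ω) D)
    (hB : ∀ x ∈ Bs, ∀ s : ℂ, (ω + 1) / 2 ≤ s.re → (B x).eval (((S.N x : ℕ) : ℂ) ^ (-s)) ≠ 0)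
    {q A : ℝ} (hA : 0 < A) (h : InL2 (QQ S Bs B tr ω) q A) : InMean (QQ S Bs B tr ω) q A := by
  have P := pair E
  have hl2 : 0 < Real.log 2 := Real.log_pos (by norm_num)
  obtain ⟨c1, c2, _⟩ := qconv E (qd_QQ E hB) q hA
  have h0 := c1.mpr h
  rw [sq_iff] at h0
  refine c2.mp ?_
  have h1 := mean_of_sq (fun U => (rem_int P.am P.al 0 U).mono_set
    (Ioc_subset_Ioc_left hl2.le)) h0
  refine (h1.comp Real.tendsto_log_atTop).congr' ?_
  filter_upwards [eventually_ge_atTop 2] with X hX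
  simp only [Function.comp]
  rw [mean_eq hX]

/-- **The mean square criterion, without any assumption about the complex half plane.** -/
theorem main_sq (E : TData S (tn S (Bs : Set S.X) tr ω) D)
    (hB : ∀ x ∈ Bs, ∀ s : ℂ, (ω + 1) / 2 ≤ s.re → (B x).eval (((S.N x : ℕ) : ℂ) ^ (-s)) ≠ 0)
    (hB0 : ∀ x ∈ Bs, (B x).eval 0 ≠ 0)
    (hF : IsContB S Bs B tr ω F) (hAn : AnalyticAt ℂ F (((ω + 1) / 2 : ℝ) : ℂ))
    (hr : analyticOrderAt F (((ω + 1) / 2 : ℝ) : ℂ) = r) (q : ℝ) {A : ℝ} (hA : 0 < A) :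
    InL2 (QQ S Bs B tr ω) q A ↔
      ((r : ℝ) = q ∧ A = Real.exp (q * Real.eulerMascheroniConstant) / lead F ((ω + 1) / 2) r) ∧
      ∃ G : ℂ → ℂ, IsFullB S Bs B tr ω G ∧ (∀ s : ℝ, (ω + 1) / 2 < s → F s = G s) ∧
        HardyLog ((ω + 1) / 2) G := by
  have hΛ := (lead_limit_at hAn hr).1
  obtain ⟨c1, _, _⟩ := qconv E (qd_QQ E hB) q hA
  have hA1 : AnalyticAt ℂ (fun s => F s * BB S Bs B s) (((ω + 1) / 2 : ℝ) : ℂ) :=
    hAn.mul (BB_diff.analyticAt _)
  have hr1 := Pool.Agent.W524.LV.order_BB (S := S) (Bs := Bs) (B := B) hB hAn hr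
  have hL1 := centre_clim (S := S) (Bs := Bs) (B := B) hB hAn hr
  constructor
  · intro h
    obtain ⟨h1, G1, hG, hFG⟩ := mean_real E hB hF hAn hr hA (mean_of_L2 E hB hA h)
    have k := (sq_real E hA1 hr1 hL1 hG hFG q _).mp (c1.mpr h)
    refine ⟨h1, _, hG.isFullB E hB, fun s hs => ?_, ?_⟩
    · show F s = G1 s * (BB S Bs B s)⁻¹
      rw [← hFG s hs, mul_inv_cancel_right₀]
      exact BB_ne hB (by rw [Complex.ofReal_re]; linarith)
    · refine (hardy_BB hB hB0).mp (hardy_congr k.1 fun s hs => ?_)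
      rw [inv_mul_cancel_right₀]
      exact BB_ne hB hs.le
  · rintro ⟨⟨h1, h2⟩, G, hG, hFG, hH⟩
    have hG1 := IsFullB.isFull E hB hG
    refine c1.mp ((sq_real E hA1 hr1 hL1 hG1 (fun s hs => ?_) q _).mpr
      ⟨(hardy_BB hB hB0).mpr hH, h1, (const_eq hΛ (bc_pos hB) hA).mpr h2⟩)
    rw [hFG s hs]

end Pool.Agent.W524.LQ
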